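import Mathlib

/-!
MP_1b8d5d_pr: the geometry of a vertex of the unit ball of a sublinear function `mu` on `ℝ^d`
(a boundary point whose normal cone has nonempty interior).

`exists_forms`: there are finitely many linear forms `h ≤ mu` with `h v = 1` which together dominate
`g + c' ‖z - g(z) v‖` and each of which has cheap balls: for every `ε` there is a ball of radius `1`
on which `mu ≤ h + ε`.
-/

set_option autoImplicit false

namespace Pool.Agent.W_1b8d5d_h71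

open Finset Filter Topology

variable {d : ℕ}

/-- Sublinear functions. -/
structure SubLin (mu : (Fin d → ℝ) → ℝ) : Prop where
  hom : ∀ (c : ℝ) (x : Fin d → ℝ), 0 ≤ c → mu (c • x) = c * mu x
  sub : ∀ x y : Fin d → ℝ, mu (x + y) ≤ mu x + mu y

/-- `v` is a vertex of `{mu ≤ 1}`, `g` an interior point of the set of supporting forms. -/
structure IsVertex (mu : (Fin d → ℝ) → ℝ) (g v : Fin d → ℝ) (c : ℝ) : Prop where
  pos : 0 < c
  gv : g ⬝ᵥ v = 1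
  muv : mu v = 1
  low : ∀ z : Fin d → ℝ, g ⬝ᵥ z + c * ‖z - (g ⬝ᵥ z) • v‖ ≤ mu z

/-- `mu ≤ h + ε` on some ball of radius `1`. -/
def CheapBalls (mu : (Fin d → ℝ) → ℝ) (h : Fin d → ℝ) : Prop :=
  ∀ ε : ℝ, 0 < ε → ∃ e : Fin d → ℝ, ∀ u : Fin d → ℝ, ‖u‖ ≤ 1 → mu (e + u) ≤ h ⬝ᵥ (e + u) + ε

/-- The forms below `mu`. -/
def KK (mu : (Fin d → ℝ) → ℝ) : Set (Fin d → ℝ) := {h | ∀ x, h ⬝ᵥ x ≤ mu x}

/-- The supporting forms at `v`. -/
def DD (mu : (Fin d → ℝ) → ℝ) (v : Fin d → ℝ) : Set (Fin d → ℝ) := {h | h ∈ KK mu ∧ h ⬝ᵥ v = 1}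

theorem KK_closed (mu : (Fin d → ℝ) → ℝ) : IsClosed (KK mu) := by
  have : KK mu = ⋂ x : Fin d → ℝ, {h | h ⬝ᵥ x ≤ mu x} := by
    ext h; simp [KK]
  rw [this]
  refine isClosed_iInter fun x => ?_
  exact isClosed_le (by unfold dotProduct; fun_prop) continuous_const

theorem KK_bdd (mu : (Fin d → ℝ) → ℝ) : Bornology.IsBounded (KK mu) := by
  rw [isBounded_iff_forall_norm_le]
  refine ⟨∑ i : Fin d, (|mu (Pi.single i 1)| + |mu (-Pi.single i 1)|), fun h hh => ?_⟩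
  refine (pi_norm_le_iff_of_nonneg (sum_nonneg fun i _ => by positivity)).2 fun i => ?_
  have h1 := hh (Pi.single i 1)
  have h2 := hh (-Pi.single i 1)
  rw [dotProduct_single, mul_one] at h1
  rw [dotProduct_neg, dotProduct_single, mul_one] at h2
  have h3 : |h i| ≤ |mu (Pi.single i 1)| + |mu (-Pi.single i 1)| := by
    rw [abs_le]
    have a1 := le_abs_self (mu (Pi.single i 1))
    have a2 := le_abs_self (mu (-Pi.single i 1))
    have a3 := abs_nonneg (mu (Pi.single i 1))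
    have a4 := abs_nonneg (mu (-Pi.single i 1))
    constructor <;> linarith
  refine h3.trans ?_
  exact single_le_sum (f := fun i : Fin d => |mu (Pi.single i 1)| + |mu (-Pi.single i 1)|)
    (fun j _ => by positivity) (mem_univ i)

theorem KK_compact (mu : (Fin d → ℝ) → ℝ) : IsCompact (KK mu) :=
  Metric.isCompact_of_isClosed_isBounded (KK_closed mu) (KK_bdd mu)

theorem DD_compact (mu : (Fin d → ℝ) → ℝ) (v : Fin d → ℝ) : IsCompact (DD mu v) := by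
  have : DD mu v = KK mu ∩ {h | h ⬝ᵥ v = 1} := by
    ext h; simp [DD]
  rw [this]
  refine (KK_compact mu).inter_right ?_
  exact isClosed_eq (by unfold dotProduct; fun_prop) continuous_const

theorem SubLin.zero {mu : (Fin d → ℝ) → ℝ} (hm : SubLin mu) : mu 0 = 0 := by
  have := hm.hom 0 0 le_rfl
  simpa using this

/-- Hahn-Banach. -/
theorem exists_support {mu : (Fin d → ℝ) → ℝ} (hm : SubLin mu) {g : Fin d → ℝ} (hg : g ∈ KK mu)
    (x : Fin d → ℝ) : ∃ h ∈ KK mu, h ⬝ᵥ x = mu x := by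
  by_cases hx : x = 0
  · subst hx
    exact ⟨g, hg, by rw [dotProduct_zero, hm.zero]⟩
  let f : (Fin d → ℝ) →ₗ.[ℝ] ℝ := LinearPMap.mkSpanSingleton x (mu x) hx
  obtain ⟨φ, hφ1, hφ2⟩ := exists_extension_of_le_sublinear f mu
    (fun c hc y => hm.hom c y hc.le) hm.sub (by
      rintro ⟨y, hy⟩
      obtain ⟨c, rfl⟩ := Submodule.mem_span_singleton.1 hy
      have e : f ⟨c • x, hy⟩ = c * mu x := by
        exact LinearPMap.mkSpanSingleton'_apply x (mu x) _ c hy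
      rw [e]
      show c * mu x ≤ mu (c • x)
      rcases le_total 0 c with hc | hc
      · rw [hm.hom c x hc]
      · have h1 := hm.hom (-c) x (by linarith)
        have h2 := hm.sub (c • x) ((-c) • x)
        rw [h1] at h2
        have h3 : c • x + (-c) • x = 0 := by rw [← add_smul]; simp
        rw [h3, hm.zero] at h2
        linarith)
  have hrep : ∀ y : Fin d → ℝ, (fun i => φ (Pi.single i 1)) ⬝ᵥ y = φ y := by
    intro y
    unfold dotProduct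
    conv_rhs => rw [← Finset.univ_sum_single y]
    rw [map_sum]
    refine sum_congr rfl fun i _ => ?_
    have : (Pi.single i (y i) : Fin d → ℝ) = y i • Pi.single i (1 : ℝ) := by
      rw [← Pi.single_smul, smul_eq_mul, mul_one]
    rw [this, map_smul, smul_eq_mul, mul_comm]
  refine ⟨fun i => φ (Pi.single i 1), fun y => ?_, ?_⟩
  · rw [hrep]; exact hφ2 y
  · rw [hrep]
    have hmem : x ∈ f.domain := Submodule.mem_span_singleton_self x
    have h1 := hφ1 ⟨x, hmem⟩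
    have h2 : f ⟨x, hmem⟩ = mu x := LinearPMap.mkSpanSingleton'_apply_self x (mu x) _ hmem
    rw [← h2, ← h1]

/-- A strongly exposed supporting form has cheap balls. -/
theorem cheap_of_exposed {mu : (Fin d → ℝ) → ℝ} (hm : SubLin mu) {v k w : Fin d → ℝ}
    (hv : mu v = 1) (hk : k ∈ DD mu v)
    (hw : ∀ h ∈ DD mu v, h ⬝ᵥ w ≤ k ⬝ᵥ w - (h - k) ⬝ᵥ (h - k) / 2) : CheapBalls mu k := by
  intro ε hε
  set β : ℝ := (d + 1) / ε with hβ
  have hβ0 : 0 < β := by positivity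
  by_contra hcon
  push Not at hcon
  -- the counterexamples
  have hex : ∀ n : ℕ, ∃ p : (Fin d → ℝ) × (Fin d → ℝ), p ∈ KK mu ×ˢ Metric.closedBall 0 1 ∧
      k ⬝ᵥ (β • w + p.2) + ε + n * (1 - p.1 ⬝ᵥ v) ≤ p.1 ⬝ᵥ (β • w + p.2) := by
    intro n
    obtain ⟨u, hu1, hu2⟩ := hcon ((n : ℝ) • v + β • w)
    obtain ⟨h, hh1, hh2⟩ := exists_support hm hk.1 ((n : ℝ) • v + β • w + u)
    refine ⟨(h, u), ⟨hh1, by simpa using hu1⟩, ?_⟩
    rw [← hh2] at hu2
    have e1 : ∀ f : Fin d → ℝ, f ⬝ᵥ ((n : ℝ) • v + β • w + u)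
        = n * (f ⬝ᵥ v) + f ⬝ᵥ (β • w + u) := by
      intro f
      rw [add_assoc, dotProduct_add, dotProduct_smul, smul_eq_mul]
    rw [e1, e1, hk.2] at hu2
    simp only
    linarith
  choose p hp1 hp2 using hex
  have hcomp : IsCompact (KK mu ×ˢ Metric.closedBall (0 : Fin d → ℝ) 1) :=
    (KK_compact mu).prod (isCompact_closedBall 0 1)
  obtain ⟨q, hq, φ, hφ, hlim⟩ := hcomp.tendsto_subseq hp1
  have hl1 : Tendsto (fun n => (p (φ n)).1) atTop (𝓝 q.1) :=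
    (continuous_fst.tendsto q).comp hlim
  have hl2 : Tendsto (fun n => (p (φ n)).2) atTop (𝓝 q.2) :=
    (continuous_snd.tendsto q).comp hlim
  have hdot : Continuous (fun r : (Fin d → ℝ) × (Fin d → ℝ) => r.1 ⬝ᵥ r.2) := by
    unfold dotProduct; fun_prop
  have hA : Tendsto (fun n => (p (φ n)).1 ⬝ᵥ (β • w + (p (φ n)).2)) atTop
      (𝓝 (q.1 ⬝ᵥ (β • w + q.2))) := by
    have := (hdot.tendsto (q.1, β • w + q.2)).comp
      (hl1.prodMk_nhds (hl2.const_add (β • w)))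
    exact this
  have hB : Tendsto (fun n => k ⬝ᵥ (β • w + (p (φ n)).2)) atTop
      (𝓝 (k ⬝ᵥ (β • w + q.2))) := by
    have := (hdot.tendsto (k, β • w + q.2)).comp
      ((tendsto_const_nhds (x := k)).prodMk_nhds (hl2.const_add (β • w)))
    exact this
  have hC : Tendsto (fun n => (p (φ n)).1 ⬝ᵥ v) atTop (𝓝 (q.1 ⬝ᵥ v)) := by
    have := (hdot.tendsto (q.1, v)).comp (hl1.prodMk_nhds (tendsto_const_nhds (x := v)))
    exact this
  have hle1 : ∀ n, (p n).1 ⬝ᵥ v ≤ 1 := fun n => by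
    have := (hp1 n).1 v
    rwa [hv] at this
  -- the limit is a supporting form
  have hq1 : q.1 ∈ KK mu := hq.1
  have hqv : q.1 ⬝ᵥ v = 1 := by
    refine le_antisymm (le_of_tendsto' hC fun n => hle1 _) ?_
    by_contra hlt
    push Not at hlt
    -- then `n (1 - p v)` is unbounded
    have hC2 : Tendsto (fun n => 1 - (p (φ n)).1 ⬝ᵥ v) atTop (𝓝 (1 - q.1 ⬝ᵥ v)) :=
      tendsto_const_nhds.sub hC
    have hpos : 0 < 1 - q.1 ⬝ᵥ v := by linarith
    have hinf : Tendsto (fun n => ((φ n : ℕ) : ℝ) * (1 - (p (φ n)).1 ⬝ᵥ v)) atTop atTop :=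
      Tendsto.atTop_mul_pos hpos (tendsto_natCast_atTop_atTop.comp hφ.tendsto_atTop) hC2
    have hDf : Tendsto (fun n => (p (φ n)).1 ⬝ᵥ (β • w + (p (φ n)).2)
        - k ⬝ᵥ (β • w + (p (φ n)).2) - ε) atTop
        (𝓝 (q.1 ⬝ᵥ (β • w + q.2) - k ⬝ᵥ (β • w + q.2) - ε)) :=
      (hA.sub hB).sub tendsto_const_nhds
    have := tendsto_atTop_mono (fun n => by
      have := hp2 (φ n)
      linarith : ∀ n, ((φ n : ℕ) : ℝ) * (1 - (p (φ n)).1 ⬝ᵥ v)
        ≤ (p (φ n)).1 ⬝ᵥ (β • w + (p (φ n)).2) - k ⬝ᵥ (β • w + (p (φ n)).2) - ε) hinf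
    exact not_tendsto_nhds_of_tendsto_atTop this _ hDf
  have hfin : k ⬝ᵥ (β • w + q.2) + ε ≤ q.1 ⬝ᵥ (β • w + q.2) := by
    refine le_of_tendsto_of_tendsto' (hB.add tendsto_const_nhds) hA fun n => ?_
    have h1 := hp2 (φ n)
    have h2 : 0 ≤ ((φ n : ℕ) : ℝ) * (1 - (p (φ n)).1 ⬝ᵥ v) :=
      mul_nonneg (Nat.cast_nonneg _) (by linarith [hle1 (φ n)])
    linarith
  have hexp := hw q.1 ⟨hq1, hqv⟩
  -- Cauchy-Schwarz
  have hu : ‖q.2‖ ≤ 1 := by simpa using hq.2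
  have hcs : (q.1 - k) ⬝ᵥ q.2 ≤ β / 2 * ((q.1 - k) ⬝ᵥ (q.1 - k)) + d / (2 * β) := by
    unfold dotProduct
    have hterm : ∀ i : Fin d, (q.1 - k) i * q.2 i
        ≤ β / 2 * ((q.1 - k) i * (q.1 - k) i) + 1 / (2 * β) := by
      intro i
      have hi : |q.2 i| ≤ 1 := (norm_le_pi_norm q.2 i).trans hu
      have hi2 : q.2 i ^ 2 ≤ 1 := by
        rw [← sq_abs]
        have := abs_nonneg (q.2 i)
        nlinarith
      have h0 : 0 ≤ (β * (q.1 - k) i - q.2 i) ^ 2 := sq_nonneg _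
      have h1 : 2 * β * ((q.1 - k) i * q.2 i)
          ≤ 2 * β * (β / 2 * ((q.1 - k) i * (q.1 - k) i) + 1 / (2 * β)) := by
        have : 2 * β * (1 / (2 * β)) = 1 := by field_simp
        nlinarith
      exact le_of_mul_le_mul_left h1 (by positivity)
    calc ∑ i, (q.1 - k) i * q.2 i
        ≤ ∑ i, (β / 2 * ((q.1 - k) i * (q.1 - k) i) + 1 / (2 * β)) :=
          sum_le_sum fun i _ => hterm i
      _ = β / 2 * ∑ i, (q.1 - k) i * (q.1 - k) i + d / (2 * β) := by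
          rw [sum_add_distrib, ← mul_sum, sum_const, card_univ, Fintype.card_fin, nsmul_eq_mul]
          ring
  have e2 : ∀ f : Fin d → ℝ, f ⬝ᵥ (β • w + q.2) = β * (f ⬝ᵥ w) + f ⬝ᵥ q.2 := by
    intro f
    rw [dotProduct_add, dotProduct_smul, smul_eq_mul]
  rw [e2, e2] at hfin
  have e3 : (q.1 - k) ⬝ᵥ q.2 = q.1 ⬝ᵥ q.2 - k ⬝ᵥ q.2 := sub_dotProduct _ _ _
  have h5 : β * (q.1 ⬝ᵥ w) ≤ β * (k ⬝ᵥ w) - β / 2 * ((q.1 - k) ⬝ᵥ (q.1 - k)) := by
    have := mul_le_mul_of_nonneg_left hexp hβ0.le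
    linarith
  have h6 : (d : ℝ) / (2 * β) < ε := by
    rw [hβ]
    have hd : (0 : ℝ) < d + 1 := by positivity
    rw [div_lt_iff₀ (by positivity)]
    have : ε * (2 * ((d + 1) / ε)) = 2 * (d + 1) := by field_simp
    rw [this]
    linarith
  linarith

/-- In every direction there is an exposed supporting form which is nearly optimal. -/
theorem exists_exposed {mu : (Fin d → ℝ) → ℝ} {g v : Fin d → ℝ} {c : ℝ}
    (hV : IsVertex mu g v c) {y : Fin d → ℝ} (hgy : g ⬝ᵥ y = 0) (hy : ‖y‖ = 1) :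
    ∃ k w : Fin d → ℝ, k ∈ DD mu v ∧ c / 2 < k ⬝ᵥ y ∧
      ∀ h ∈ DD mu v, h ⬝ᵥ w ≤ k ⬝ᵥ w - (h - k) ⬝ᵥ (h - k) / 2 := by
  have hc := hV.pos
  -- a supporting form with value `c` at `y`
  have hdne : Nonempty (Fin d) := by
    by_contra h
    rw [not_nonempty_iff] at h
    have : y = 0 := Subsingleton.elim _ _
    rw [this, norm_zero] at hy
    exact zero_ne_one hy
  obtain ⟨j, hj⟩ : ∃ j, |y j| = 1 := by
    obtain ⟨j, hj⟩ := Finite.exists_max (fun j => |y j|)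
    refine ⟨j, le_antisymm ((norm_le_pi_norm y j).trans hy.le) ?_⟩
    rw [← hy]
    exact (pi_norm_le_iff_of_nonneg (abs_nonneg _)).2 fun i => hj i
  obtain ⟨s, hs, hsy⟩ : ∃ s : ℝ, |s| = 1 ∧ s * y j = 1 := by
    rcases abs_eq (by norm_num : (0 : ℝ) ≤ 1) |>.1 hj with h | h
    · exact ⟨1, by simp, by rw [h]; norm_num⟩
    · exact ⟨-1, by simp, by rw [h]; norm_num⟩
  let f : Fin d → ℝ := g + (c * s) • (Pi.single j 1 - v j • g)
  have hfx : ∀ x : Fin d → ℝ, f ⬝ᵥ x = g ⬝ᵥ x + c * s * (x - (g ⬝ᵥ x) • v) j := by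
    intro x
    simp only [f, add_dotProduct, smul_dotProduct, sub_dotProduct, single_dotProduct, one_mul,
      smul_eq_mul, Pi.sub_apply, Pi.smul_apply]
    ring
  have hf : f ∈ DD mu v := by
    refine ⟨fun x => ?_, ?_⟩
    · rw [hfx]
      refine le_trans ?_ (hV.low x)
      have h1 : s * (x - (g ⬝ᵥ x) • v) j ≤ ‖x - (g ⬝ᵥ x) • v‖ := by
        refine (le_abs_self _).trans ?_
        rw [abs_mul, hs, one_mul]
        exact norm_le_pi_norm (x - (g ⬝ᵥ x) • v) j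
      have := mul_le_mul_of_nonneg_left h1 hc.le
      linarith
    · rw [hfx, hV.gv, one_smul, sub_self]
      simp
  have hfy : f ⬝ᵥ y = c := by
    rw [hfx, hgy, zero_smul, sub_zero, zero_add, mul_assoc, hsy, mul_one]
  -- a bound for the diameter
  obtain ⟨R, hR⟩ : ∃ R : ℝ, ∀ h ∈ DD mu v, (h - g) ⬝ᵥ (h - g) ≤ R := by
    obtain ⟨R, hR⟩ := ((DD_compact mu v).image (f := fun h => (h - g) ⬝ᵥ (h - g))
      (by unfold dotProduct; fun_prop)).isBounded.bddAbove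
    exact ⟨R, fun h hh => hR ⟨h, hh, rfl⟩⟩
  have hR0 : 0 ≤ R := by
    refine le_trans ?_ (hR f hf)
    unfold dotProduct
    exact sum_nonneg fun i _ => mul_self_nonneg _
  set M : ℝ := (R + 1) / c with hM
  have hM0 : 0 < M := by positivity
  -- the farthest point
  obtain ⟨k, hk, hmax⟩ := (DD_compact mu v).exists_isMaxOn ⟨f, hf⟩
    (f := fun h => (h - (g - M • y)) ⬝ᵥ (h - (g - M • y)))
    (by apply Continuous.continuousOn; unfold dotProduct; fun_prop)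
  have hmax' : ∀ h ∈ DD mu v, (h - (g - M • y)) ⬝ᵥ (h - (g - M • y))
      ≤ (k - (g - M • y)) ⬝ᵥ (k - (g - M • y)) := fun h hh => hmax hh
  have hexpand : ∀ h : Fin d → ℝ, (h - (g - M • y)) ⬝ᵥ (h - (g - M • y))
      = (h - g) ⬝ᵥ (h - g) + 2 * M * (h ⬝ᵥ y) + M ^ 2 * (y ⬝ᵥ y) := by
    intro h
    have e : h - (g - M • y) = (h - g) + M • y := by abel
    rw [e]
    simp only [add_dotProduct, dotProduct_add, smul_dotProduct, dotProduct_smul, smul_eq_mul]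
    have e2 : y ⬝ᵥ (h - g) = (h - g) ⬝ᵥ y := dotProduct_comm _ _
    have e3 : (h - g) ⬝ᵥ y = h ⬝ᵥ y := by rw [sub_dotProduct, hgy, sub_zero]
    rw [e2, e3]
    ring
  refine ⟨k, k - (g - M • y), hk, ?_, ?_⟩
  · have h1 := hmax' f hf
    rw [hexpand, hexpand, hfy] at h1
    have h2 := hR k hk
    have h3 : 0 ≤ (f - g) ⬝ᵥ (f - g) := by
      unfold dotProduct
      exact sum_nonneg fun i _ => mul_self_nonneg _
    have h4 : 2 * M * (c - k ⬝ᵥ y) ≤ R := by linarith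
    have h5 : M * c = R + 1 := by rw [hM]; field_simp
    by_contra h6
    push Not at h6
    have h7 : 2 * M * (c / 2) ≤ 2 * M * (c - k ⬝ᵥ y) :=
      mul_le_mul_of_nonneg_left (by linarith) (by positivity)
    linarith
  · intro h hh
    have h1 := hmax' h hh
    set p := g - M • y with hp
    have e : h - p = (h - k) + (k - p) := by abel
    rw [e] at h1
    simp only [add_dotProduct, dotProduct_add] at h1
    have e2 : (k - p) ⬝ᵥ (h - k) = (h - k) ⬝ᵥ (k - p) := dotProduct_comm _ _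
    rw [e2] at h1
    have e3 : (h - k) ⬝ᵥ (k - p) = h ⬝ᵥ (k - p) - k ⬝ᵥ (k - p) := sub_dotProduct _ _ _
    linarith

/-- **The forms at a vertex.** -/
theorem exists_forms {mu : (Fin d → ℝ) → ℝ} (hm : SubLin mu) {g v : Fin d → ℝ} {c : ℝ}
    (hV : IsVertex mu g v c) :
    ∃ H : Finset (Fin d → ℝ), (∀ h ∈ H, (∀ z, h ⬝ᵥ z ≤ mu z) ∧ h ⬝ᵥ v = 1 ∧ CheapBalls mu h) ∧
      ∀ z : Fin d → ℝ, z ≠ (g ⬝ᵥ z) • v →
        ∃ h ∈ H, g ⬝ᵥ z + c / 2 * ‖z - (g ⬝ᵥ z) • v‖ ≤ h ⬝ᵥ z := by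
  classical
  have hc := hV.pos
  -- the compact set of directions
  have hcomp : IsCompact {y : Fin d → ℝ | g ⬝ᵥ y = 0 ∧ ‖y‖ = 1} := by
    have : {y : Fin d → ℝ | g ⬝ᵥ y = 0 ∧ ‖y‖ = 1}
        = Metric.sphere 0 1 ∩ {y | g ⬝ᵥ y = 0} := by
      ext y; simp [and_comm]
    rw [this]
    exact (isCompact_sphere 0 1).inter_right
      (isClosed_eq (by unfold dotProduct; fun_prop) continuous_const)
  have hex : ∀ y : {y : Fin d → ℝ // g ⬝ᵥ y = 0 ∧ ‖y‖ = 1}, ∃ k : Fin d → ℝ, k ∈ DD mu v ∧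
      c / 2 < k ⬝ᵥ y.1 ∧ CheapBalls mu k := by
    rintro ⟨y, hy1, hy2⟩
    obtain ⟨k, w, h1, h2, h3⟩ := exists_exposed hV hy1 hy2
    exact ⟨k, h1, h2, cheap_of_exposed hm hV.muv h1 h3⟩
  choose k hk1 hk2 hk3 using hex
  obtain ⟨t, ht⟩ := hcomp.elim_finite_subcover
    (fun y : {y : Fin d → ℝ // g ⬝ᵥ y = 0 ∧ ‖y‖ = 1} => {x : Fin d → ℝ | c / 2 < k y ⬝ᵥ x})
    (fun y => isOpen_lt continuous_const (by unfold dotProduct; fun_prop))
    (fun y hy => Set.mem_iUnion.2 ⟨⟨y, hy⟩, hk2 ⟨y, hy⟩⟩)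
  refine ⟨t.image k, ?_, ?_⟩
  · intro h hh
    obtain ⟨y, -, rfl⟩ := mem_image.1 hh
    exact ⟨(hk1 y).1, (hk1 y).2, hk3 y⟩
  · intro z hz
    set y := z - (g ⬝ᵥ z) • v with hy
    have hy0 : y ≠ 0 := sub_ne_zero.2 hz
    have hn : 0 < ‖y‖ := norm_pos_iff.2 hy0
    have hgy : g ⬝ᵥ y = 0 := by
      rw [hy, dotProduct_sub, dotProduct_smul, hV.gv, smul_eq_mul, mul_one, sub_self]
    have hmem : (‖y‖⁻¹ • y) ∈ {y : Fin d → ℝ | g ⬝ᵥ y = 0 ∧ ‖y‖ = 1} := by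
      refine ⟨by rw [dotProduct_smul, hgy, smul_zero], ?_⟩
      rw [norm_smul, norm_inv, norm_norm, inv_mul_cancel₀ hn.ne']
    obtain ⟨x, hx1, hx2⟩ := Set.mem_iUnion₂.1 (ht hmem)
    refine ⟨k x, mem_image_of_mem k hx1, ?_⟩
    have h1 : c / 2 < k x ⬝ᵥ (‖y‖⁻¹ • y) := hx2
    rw [dotProduct_smul, smul_eq_mul, inv_mul_eq_div, lt_div_iff₀ hn] at h1
    have h2 : k x ⬝ᵥ y = k x ⬝ᵥ z - g ⬝ᵥ z := by
      rw [hy, dotProduct_sub, dotProduct_smul, (hk1 x).2, smul_eq_mul, mul_one]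
    linarith

end Pool.Agent.W_1b8d5d_h71
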